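import Pool.Agent.Lib_MP_f019fe_c.CoreH

/-!
MP_f019fe_gt, Q1: exotic quasi-isometric embeddings of quaternionic hyperbolic spaces.

For all `m > n ≥ 1` there is an exotic quasi-isometric embedding of quaternionic hyperbolic `n`-space in
quaternionic hyperbolic `m`-space; it changes distances by at most `log 4`.
-/

set_option autoImplicit false

namespace Pool.Agent.Results.MP_f019fe_gt.QuaternionicTargets

open Pool.Agent.HExotic

/-- The unit ball of `ℍ^n`, the underlying set of quaternionic hyperbolic `n`-space. -/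
def Ball (n : ℕ) : Set (Fin n → Quaternion ℝ) := {x | ∑ i, ‖x i‖ ^ 2 < 1}

/-- The distance of quaternionic hyperbolic `n`-space (ball model, curvature between `-4` and `-1`):
`cosh² d(x,y) = |1 - ⟨x,y⟩|² / ((1-|x|²)(1-|y|²))`, `⟨x,y⟩ = ∑ conj(x_i) y_i`. -/
noncomputable def hdist {n : ℕ} (x y : Fin n → Quaternion ℝ) : ℝ :=
  Real.arsinh (Real.sqrt (‖(1 : Quaternion ℝ) - ∑ i, star (x i) * y i‖ ^ 2 /
    ((1 - ∑ i, ‖x i‖ ^ 2) * (1 - ∑ i, ‖y i‖ ^ 2)) - 1))

/-- `f` is a quasi-isometric embedding of quaternionic hyperbolic `n`-space in quaternionic hyperbolic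
`m`-space. -/
def IsQIEmbedding {n m : ℕ} (f : (Fin n → Quaternion ℝ) → (Fin m → Quaternion ℝ)) : Prop :=
  (∀ x ∈ Ball n, f x ∈ Ball m) ∧ ∃ L C : ℝ, 1 ≤ L ∧ 0 ≤ C ∧ ∀ x ∈ Ball n, ∀ y ∈ Ball n,
    hdist x y / L - C ≤ hdist (f x) (f y) ∧ hdist (f x) (f y) ≤ L * hdist x y + C

/-- `g` is an isometric embedding of quaternionic hyperbolic `n`-space in quaternionic hyperbolic
`m`-space. -/
def IsIsometricEmbedding {n m : ℕ} (g : (Fin n → Quaternion ℝ) → (Fin m → Quaternion ℝ)) : Prop :=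
  (∀ x ∈ Ball n, g x ∈ Ball m) ∧ ∀ x ∈ Ball n, ∀ y ∈ Ball n, hdist (g x) (g y) = hdist x y

/-- The two sets are within Hausdorff distance `R` of each other: every point of either one is at
distance at most `R` from some point of the other one. -/
def HausdorffLE {m : ℕ} (R : ℝ) (A B : Set (Fin m → Quaternion ℝ)) : Prop :=
  (∀ a ∈ A, ∃ b ∈ B, hdist a b ≤ R) ∧ ∀ b ∈ B, ∃ a ∈ A, hdist b a ≤ R

/-- An exotic quasi-isometric embedding: its image is at infinite Hausdorff distance from the image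
of every isometric embedding. -/
def IsExotic {n m : ℕ} (f : (Fin n → Quaternion ℝ) → (Fin m → Quaternion ℝ)) : Prop :=
  IsQIEmbedding f ∧ ∀ g : (Fin n → Quaternion ℝ) → (Fin m → Quaternion ℝ), IsIsometricEmbedding g →
    ∀ R : ℝ, ¬ HausdorffLE R (f '' Ball n) (g '' Ball n)

theorem result (n m : ℕ) (hn : 1 ≤ n) (hm : n < m) :
    ∃ f : (Fin n → Quaternion ℝ) → (Fin m → Quaternion ℝ), IsExotic f ∧
      ∀ x ∈ Ball n, ∀ y ∈ Ball n, |hdist (f x) (f y) - hdist x y| ≤ Real.log 4 := by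
  obtain ⟨f, h1, h2, h3⟩ := coreH' n m hn hm
  have hb : ∀ {k : ℕ} {x : Fin k → Quaternion ℝ}, x ∈ Ball k → 0 < dl x := by
    intro k x hx; exact sub_pos.2 hx
  have hb' : ∀ {k : ℕ} {x : Fin k → Quaternion ℝ}, 0 < dl x → x ∈ Ball k := by
    intro k x hx; exact sub_pos.1 hx
  have h4 : 0 ≤ Real.log 4 := Real.log_nonneg (by norm_num)
  have h5 : ∀ x ∈ Ball n, ∀ y ∈ Ball n, hdist x y ≤ hdist (f x) (f y) ∧
      hdist (f x) (f y) ≤ hdist x y + Real.log 4 := fun x hx y hy => h2 x y (hb hx) (hb hy)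
  refine ⟨f, ⟨⟨fun x hx => hb' (h1 x (hb hx)), 1, Real.log 4, le_rfl, h4, ?_⟩, ?_⟩, ?_⟩
  · intro x hx y hy
    obtain ⟨h6, h7⟩ := h5 x hx y hy
    rw [div_one, one_mul]
    exact ⟨by linarith, h7⟩
  · rintro g ⟨hg1, hg2⟩ R ⟨hR, -⟩
    obtain ⟨x, hx, hx2⟩ := h3 g (fun x hx => hb (hg1 x (hb' hx)))
      (fun x y hx hy => hg2 x (hb' hx) y (hb' hy)) R
    obtain ⟨b, ⟨y, hy, rfl⟩, hb2⟩ := hR (f x) ⟨x, hb' hx, rfl⟩
    exact absurd hb2 (not_le.2 (hx2 y (hb hy)))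
  · intro x hx y hy
    obtain ⟨h6, h7⟩ := h5 x hx y hy
    rw [abs_le]
    constructor <;> linarith

end Pool.Agent.Results.MP_f019fe_gt.QuaternionicTargets
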